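import Pool.Agent.Work.MP_c93117_an.Neg.St

/-!
# Project Neg: item PiDense (approximation by functions which factor through a retraction)
-/

set_option autoImplicit false

namespace Pool.Agent.Work.MP_c93117_an.Neg

namespace AuxPiDense

/-- the initial parts of the word of a node -/
def wd : K → Finset (List ℕ)
  | .oo => ∅
  | .pt x => x.s.tails.toFinset

/-- the part of the space of a node -/
def rad : K → ℕ
  | .oo => 0
  | .pt x => x.R

/-- finite data which see the nodes in `A` -/
def ext (F : FD) (A : Finset K) : FD where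
  B := F.B ∪ (open Classical in A.biUnion wd)
  R0 := max F.R0 (A.sup rad)
  cl := by
    classical
    intro s t hs ht
    rw [Finset.mem_union] at hs ⊢
    rcases hs with hs | hs
    · exact Or.inl (F.cl s t hs ht)
    · right
      rw [Finset.mem_biUnion] at hs ⊢
      obtain ⟨u, hu, hsu⟩ := hs
      refine ⟨u, hu, ?_⟩
      cases u with
      | oo => exact absurd hsu (Finset.notMem_empty s)
      | pt x =>
        have h1 : s <:+ x.s := by
          have h2 : s ∈ x.s.tails.toFinset := hsu
          rw [List.mem_toFinset, List.mem_tails] at h2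
          exact h2
        show t ∈ x.s.tails.toFinset
        rw [List.mem_toFinset, List.mem_tails]
        exact ht.trans h1

theorem le_ext (F : FD) (A : Finset K) : F ≤ ext F A :=
  ⟨Finset.subset_union_left, le_max_left _ _⟩

theorem le_piF (F : FD) (A : Finset K) {u : K} (hu : u ∈ A) {q : K} (h : u ≤ q) :
    u ≤ piF (ext F A) q := by
  classical
  cases u with
  | oo => exact K.oo_le _
  | pt x =>
    cases q with
    | oo => exact absurd h K.not_pt_le_oo
    | pt y =>
      obtain ⟨hR, hj, hi, hs, ha⟩ := Nd.le_def.1 (K.pt_le_pt.1 h)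
      have h1 : x.R ≤ A.sup rad := Finset.le_sup (f := rad) hu
      have h2 : y.R ≤ (ext F A).R0 := by
        rw [← hR]
        exact h1.trans (le_max_right _ _)
      have h3 : piF (ext F A) (.pt y) = nd y.R y.j y.i (trB (ext F A) y.s) y.a := if_pos h2
      rw [h3, pt_le_nd]
      refine ⟨⟨y.hj, y.hi⟩, hR, hj, hi, ?_, ha⟩
      apply tr_max hs
      show x.s ∈ F.B ∪ A.biUnion wd
      rw [Finset.mem_union]
      right
      rw [Finset.mem_biUnion]
      refine ⟨.pt x, hu, ?_⟩
      show x.s ∈ x.s.tails.toFinset
      rw [List.mem_toFinset, List.mem_tails]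

end AuxPiDense

open AuxPiDense in
theorem pr_PiDense (h1 : StDense) (h2 : StPiLe) : StPiDense := by
  classical
  intro f hf η hη F
  obtain ⟨A, c, hA⟩ := h1 f hf (η / 2) (by linarith)
  refine ⟨ext F A, le_ext F A, ?_⟩
  intro q
  have hind : ∀ u ∈ A, ind u (piF (ext F A) q) = ind u q := by
    intro u hu
    have hiff : u ≤ piF (ext F A) q ↔ u ≤ q :=
      ⟨fun h => le_trans h (h2.1 (ext F A) q), fun h => le_piF F A hu h⟩
    unfold ind
    by_cases h : u ≤ q
    · rw [if_pos h, if_pos (hiff.2 h)]
    · rw [if_neg h, if_neg (fun h' => h (hiff.1 h'))]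
  have hsum : ∑ u ∈ A, c u * ind u (piF (ext F A) q) = ∑ u ∈ A, c u * ind u q :=
    Finset.sum_congr rfl (fun u hu => by rw [hind u hu])
  have e1 := hA q
  have e2 := hA (piF (ext F A) q)
  rw [hsum] at e2
  rw [abs_le] at e1 e2 ⊢
  constructor <;> linarith [e1.1, e1.2, e2.1, e2.2]

end Pool.Agent.Work.MP_c93117_an.Neg
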