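import Pool.Agent.Work.MP_c93117_an.Neg.St

/-! Item Qchi: the thinning leaves `CS s0` invariant. -/

set_option autoImplicit false

noncomputable section

open Finset

namespace Pool.Agent.Work.MP_c93117_an.Neg

namespace AuxQchi

/-- the weighted sum -/
def W (p : ℝ) (a : Finset ℕ) (f : Finset ℕ → ℝ) : ℝ :=
  ∑ b ∈ a.powerset, p ^ b.card * (1 - p) ^ (a \ b).card * f b

theorem W_insert (p : ℝ) (a : Finset ℕ) (x : ℕ) (hx : x ∉ a) (f : Finset ℕ → ℝ) :
    W p (insert x a) f = W p a (fun b => (1 - p) * f b + p * f (insert x b)) := by
  unfold W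
  rw [Finset.sum_powerset_insert hx, ← Finset.sum_add_distrib]
  apply Finset.sum_congr rfl
  intro b hb
  rw [Finset.mem_powerset] at hb
  have hxb : x ∉ b := fun h => hx (hb h)
  have h1 : ((insert x a) \ b).card = (a \ b).card + 1 := by
    rw [Finset.insert_sdiff_of_notMem _ hxb, Finset.card_insert_of_notMem]
    intro h
    exact hx (Finset.mem_sdiff.1 h).1
  have h2 : (insert x a) \ (insert x b) = a \ b := by
    ext y
    simp only [Finset.mem_sdiff, Finset.mem_insert]
    constructor
    · rintro ⟨h3 | h3, h4⟩
      · exact absurd (Or.inl h3) h4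
      · exact ⟨h3, fun h5 => h4 (Or.inr h5)⟩
    · rintro ⟨h3, h4⟩
      refine ⟨Or.inr h3, ?_⟩
      rintro (h5 | h5)
      · rw [h5] at h3
        exact hx h3
      · exact h4 h5
  rw [h1, h2, Finset.card_insert_of_notMem hxb]
  ring

theorem W_filter (p : ℝ) (n : ℕ) (a : Finset ℕ) : ∀ f : Finset ℕ → ℝ,
    (∀ y b, ¬ y < n → f (insert y b) = f b) → W p a f = W p (a.filter (· < n)) f := by
  induction a using Finset.induction_on with
  | empty =>
    intro f _
    rw [Finset.filter_empty]
  | insert x a hx ih =>
    intro f hf
    rw [W_insert p a x hx]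
    by_cases hxn : x < n
    · rw [Finset.filter_insert, if_pos hxn, W_insert p _ x
        (fun h => hx (Finset.mem_filter.1 h).1)]
      apply ih
      intro y b hy
      rw [hf y b hy, Finset.insert_comm, hf y _ hy]
    · rw [Finset.filter_insert, if_neg hxn, ← ih f hf]
      unfold W
      apply Finset.sum_congr rfl
      intro b _
      show p ^ b.card * (1 - p) ^ (a \ b).card * ((1 - p) * f b + p * f (insert x b)) = _
      rw [hf x b hxn]
      ring

open Classical in
theorem formula (p : ℝ) (s0 : List ℕ) (b0 : Finset ℕ) (hb0 : b0 ⊆ range (cc s0)) :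
    Qop p (chi s0 b0) = ∑ b ∈ (range (cc s0)).powerset.filter (fun b => b0 ⊆ b),
      (p ^ b0.card * (1 - p) ^ (b \ b0).card) • chi s0 b := by
  funext s a
  rw [Finset.sum_apply, Finset.sum_apply]
  show W p a (fun b => chi s0 b0 s b) = _
  by_cases hs : s0 <:+ s
  · have e1 : (fun b => chi s0 b0 s b) =
        fun b : Finset ℕ => if b.filter (· < cc s0) = b0 then (1 : ℝ) else 0 := by
      funext b
      unfold chi
      simp only [hs, true_and]
    rw [e1, W_filter p (cc s0) a]
    · set a' := a.filter (· < cc s0) with ha'
      have ha'r : a' ⊆ range (cc s0) := by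
        intro x hx
        rw [Finset.mem_range]
        exact (Finset.mem_filter.1 hx).2
      have e2 : W p a' (fun b : Finset ℕ => if b.filter (· < cc s0) = b0 then (1 : ℝ) else 0) =
          if b0 ⊆ a' then p ^ b0.card * (1 - p) ^ (a' \ b0).card else 0 := by
        unfold W
        have e3 : ∀ b ∈ a'.powerset, p ^ b.card * (1 - p) ^ (a' \ b).card *
            (if b.filter (· < cc s0) = b0 then (1 : ℝ) else 0) =
            if b0 = b then p ^ b0.card * (1 - p) ^ (a' \ b0).card else 0 := by
          intro b hb
          rw [Finset.mem_powerset] at hb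
          have e4 : b.filter (· < cc s0) = b := by
            apply Finset.filter_true_of_mem
            intro x hx
            exact Finset.mem_range.1 (ha'r (hb hx))
          rw [e4]
          by_cases h : b = b0
          · rw [if_pos h, if_pos h.symm, h, mul_one]
          · rw [if_neg h, if_neg (fun h' => h h'.symm), mul_zero]
        rw [Finset.sum_congr rfl e3, Finset.sum_ite_eq]
        simp only [Finset.mem_powerset]
      rw [e2]
      have e5 : ∀ b ∈ (range (cc s0)).powerset.filter (fun b => b0 ⊆ b),
          ((p ^ b0.card * (1 - p) ^ (b \ b0).card) • chi s0 b) s a =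
          if a' = b then p ^ b0.card * (1 - p) ^ (a' \ b0).card else 0 := by
        intro b _
        show (p ^ b0.card * (1 - p) ^ (b \ b0).card) * chi s0 b s a = _
        unfold chi
        simp only [hs, true_and]
        by_cases h : a' = b
        · rw [if_pos h, if_pos h, ← h, mul_one]
        · rw [if_neg h, if_neg h, mul_zero]
      rw [Finset.sum_congr rfl e5, Finset.sum_ite_eq]
      simp only [Finset.mem_filter, Finset.mem_powerset]
      by_cases h : b0 ⊆ a'
      · rw [if_pos h, if_pos ⟨ha'r, h⟩]
      · rw [if_neg h, if_neg (fun h' => h h'.2)]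
    · intro y b hy
      rw [Finset.filter_insert, if_neg hy]
  · have e1 : (fun b => chi s0 b0 s b) = fun _ : Finset ℕ => (0 : ℝ) := by
      funext b
      unfold chi
      simp only [hs, false_and, if_false]
    rw [e1]
    unfold W
    simp only [mul_zero, Finset.sum_const_zero]
    symm
    apply Finset.sum_eq_zero
    intro b _
    show (p ^ b0.card * (1 - p) ^ (b \ b0).card) * chi s0 b s a = 0
    unfold chi
    simp only [hs, false_and, if_false, mul_zero]

end AuxQchi

theorem pr_Qchi : StQchi := by
  intro p s0 F hF
  unfold CS at hF ⊢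
  induction hF using Submodule.span_induction with
  | mem F h =>
    obtain ⟨b, hb, hb', rfl⟩ := h
    rw [AuxQchi.formula p s0 b hb]
    apply Submodule.sum_mem
    intro b' hb''
    rw [Finset.mem_filter, Finset.mem_powerset] at hb''
    apply Submodule.smul_mem
    exact Submodule.subset_span ⟨b', hb''.1, hb''.2 hb', rfl⟩
  | zero =>
    rw [map_zero]
    exact Submodule.zero_mem _
  | add x y _ _ hx hy =>
    rw [map_add]
    exact Submodule.add_mem _ hx hy
  | smul c x _ hx =>
    rw [map_smul]
    exact Submodule.smul_mem _ _ hx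

end Pool.Agent.Work.MP_c93117_an.Neg
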