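import Pool.Agent.Work.MP_c93117_an.Neg.I_Dense
import Pool.Agent.Work.MP_c93117_an.Bd.B02
import Pool.Agent.Work.MP_c93117_an.Bd.B01
import Pool.Agent.Work.MP_c93117_an.Neg.I_Qchi
import Pool.Agent.Work.MP_c93117_an.Neg.I_PiDense

/-!
# Project Neg: assembly
-/

set_option autoImplicit false

namespace Pool.Agent.Work.MP_c93117_an.Neg

theorem all_Dense : StDense := pr_Dense
theorem all_Qabs : StQabs := pr_Qabs
theorem all_Qthin : StQthin := pr_Qthin all_Qabs
theorem all_Qadm : StQadm := pr_Qadm
theorem all_Qpsi : StQpsi := pr_Qpsi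
theorem all_Qchi : StQchi := pr_Qchi
theorem all_N1 : StN1 := pr_N1
theorem all_N1eps : StN1eps := pr_N1eps all_N1
theorem all_N1Pi : StN1Pi := pr_N1Pi all_N1 all_N1eps
theorem all_Tel : StTel := pr_Tel
theorem all_N1op : StN1op := pr_N1op all_Qabs
theorem all_Comm : StComm := pr_Comm
theorem all_Dsum : StDsum := pr_Dsum
theorem all_Dzero : StDzero := pr_Dzero
theorem all_Dloc : StDloc := pr_Dloc
theorem all_LftPP : StLftPP := pr_LftPP all_Qadm all_Dloc
theorem all_Idem : StIdem := pr_Idem all_Comm all_Dsum all_LftPP all_Tel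
theorem all_Norm : StNorm := pr_Norm all_Comm all_Dzero all_N1Pi all_N1op all_N1
theorem all_Dchi : StDchi := pr_Dchi
theorem all_ContInd : StContInd := pr_ContInd all_Qchi all_Dchi
theorem all_Cont : StCont := pr_Cont all_Dense all_Norm all_ContInd
theorem all_GsCont : StGsCont := pr_GsCont
theorem all_Low : StLow := pr_Low all_Qpsi
theorem all_Small : StSmall := pr_Small all_Comm all_Qabs all_Qthin all_N1op all_N1Pi all_N1
theorem all_PiNd : StPiNd := pr_PiNd
theorem all_PiLe : StPiLe := pr_PiLe
theorem all_PiMove : StPiMove := pr_PiMove all_PiNd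
theorem all_PiClopen : StPiClopen := pr_PiClopen all_PiLe
theorem all_PiDense : StPiDense := pr_PiDense all_Dense all_PiLe
theorem all_Step : StStep := pr_Step
theorem all_One : StOne := pr_One all_Step all_PiClopen all_PiDense
theorem all_InvStep : StInvStep := pr_InvStep all_PiMove
theorem all_InvEnd : StInvEnd := pr_InvEnd
theorem all_ForcedStep : StForcedStep := pr_ForcedStep
theorem all_Part : StPart := pr_Part all_One all_InvStep all_InvEnd all_PiLe all_PiClopen
theorem all_Parts : StParts := pr_Parts all_Part all_ForcedStep all_PiLe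
theorem all_Block : StBlock := pr_Block all_One all_Parts all_Small all_PiLe all_PiClopen
theorem all_Ind : StInd := pr_Ind all_Block all_PiLe all_PiClopen
theorem all_Case1 : StCase1 := pr_Case1 all_Ind
theorem all_Rank : StRank := pr_Rank
theorem all_GoodA : StGoodA := pr_GoodA
theorem all_GoodB : StGoodB := pr_GoodB
theorem all_Coord : StCoord := pr_Coord all_GoodA all_GoodB
theorem all_Blk : StBlk := pr_Blk all_GoodA all_Coord
theorem all_Case2 : StCase2 := pr_Case2 all_Rank all_GoodA all_Blk
theorem all_NotIso : StNotIso := pr_NotIso all_Case1 all_Case2 all_Low all_GsCont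
theorem all_Final : StFinal := pr_Final all_NotIso all_Cont all_Norm all_Idem

end Pool.Agent.Work.MP_c93117_an.Neg
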