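import Pool.Agent.Work.MP_c93117_an.Neg.Defs

/-!
# Project Neg: basic lemmas on `tr`, the machine and the order
-/

set_option autoImplicit false

noncomputable section

namespace Pool.Agent.Work.MP_c93117_an.Neg

/-! ## `tr` -/

theorem tr_nil (P : List ℕ → Prop) : tr P [] = [] := rfl

theorem tr_pos {P : List ℕ → Prop} {e : ℕ} {s : List ℕ} (h : P (e :: s)) :
    tr P (e :: s) = e :: s := by
  unfold tr
  rw [if_pos h]

theorem tr_neg {P : List ℕ → Prop} {e : ℕ} {s : List ℕ} (h : ¬ P (e :: s)) :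
    tr P (e :: s) = tr P s := by
  conv_lhs => unfold tr
  rw [if_neg h]

theorem tr_suffix (P : List ℕ → Prop) (s : List ℕ) : tr P s <:+ s := by
  induction s with
  | nil => exact List.suffix_rfl
  | cons e s ih =>
    by_cases h : P (e :: s)
    · rw [tr_pos h]
    · rw [tr_neg h]
      exact ih.trans (List.suffix_cons e s)

theorem tr_self {P : List ℕ → Prop} {s : List ℕ} (h : P s) : tr P s = s := by
  cases s with
  | nil => rfl
  | cons e s => exact tr_pos h

theorem tr_max {P : List ℕ → Prop} {s t : List ℕ} (h : t <:+ s) (ht : P t) : t <:+ tr P s := by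
  induction s with
  | nil => simpa [tr_nil] using h
  | cons e s ih =>
    by_cases h1 : P (e :: s)
    · rw [tr_pos h1]
      exact h
    · rw [tr_neg h1]
      rcases List.suffix_cons_iff.1 h with h2 | h2
      · exact absurd (h2 ▸ ht) h1
      · exact ih h2

theorem tr_mono {P : List ℕ → Prop} {s t : List ℕ} (h : t <:+ s) : tr P t <:+ tr P s := by
  rcases tr_spec P t with h1 | h1
  · rw [h1]
    exact List.nil_suffix
  · exact tr_max ((tr_suffix P t).trans h) h1

theorem suffix_antisymm {s t : List ℕ} (h : s <:+ t) (h' : t <:+ s) : s = t :=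
  h.eq_of_length (le_antisymm h.length_le h'.length_le)

theorem tr_tr (P : List ℕ → Prop) (s : List ℕ) : tr P (tr P s) = tr P s := by
  rcases tr_spec P s with h1 | h1
  · rw [h1]
    rfl
  · exact tr_self h1

/-- suffixes of the same word are comparable -/
theorem suffix_total {s t w : List ℕ} (hs : s <:+ w) (ht : t <:+ w) : s <:+ t ∨ t <:+ s :=
  List.suffix_or_suffix_of_suffix hs ht

/-- if `t` is between `tr P s` and `s`, then `tr P t = tr P s` -/
theorem tr_between {P : List ℕ → Prop} {s t : List ℕ} (h1 : tr P s <:+ t) (h2 : t <:+ s) :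
    tr P t = tr P s := by
  refine suffix_antisymm (tr_mono h2) ?_
  have h3 := tr_mono (P := P) h1
  rwa [tr_tr] at h3

/-- if `P` implies `P'` then `tr P (tr P' s) = tr P s` -/
theorem tr_comp {P P' : List ℕ → Prop} (h : ∀ w, P w → P' w) (s : List ℕ) :
    tr P (tr P' s) = tr P s := by
  apply tr_between _ (tr_suffix P' s)
  rcases tr_spec P s with h1 | h1
  · rw [h1]
    exact List.nil_suffix
  · exact tr_max (tr_suffix P s) (h _ h1)

/-- the interaction of `tr` with a suffix closed predicate -/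
theorem tr_closed {P C : List ℕ → Prop} (hC : ∀ w t, C w → t <:+ w → C t) (s : List ℕ) :
    tr P (tr C (tr P s)) = tr P (tr C s) := by
  rcases suffix_total (tr_suffix P s) (tr_suffix C s) with h | h
  · -- `tr P s <:+ tr C s`
    have h1 : tr C (tr P s) = tr P s := by
      rcases tr_spec C s with h2 | h2
      · rw [h2] at h
        rw [List.suffix_nil.1 h]
        rfl
      · exact tr_self (hC _ _ h2 h)
    rw [h1, tr_tr, tr_between h (tr_suffix C s)]
  · -- `tr C s <:+ tr P s`
    rw [tr_between h (tr_suffix P s)]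

/-! ## The machine -/

theorem st_cons (e : ℕ) (s : List ℕ) : st (e :: s) = stp (st s) e := rfl

theorem st_eq (s : List ℕ) : st s = (bb s, MM s, rr s) := rfl

theorem bb_nil : bb [] = 0 := rfl
theorem MM_nil : MM [] = 0 := rfl
theorem cc_nil : cc [] = 0 := rfl

theorem cc_cons (e : ℕ) (s : List ℕ) : cc (e :: s) = if rr s = 0 then cc s + 1 else cc s := rfl

/-- the step belongs to the current coordinate -/
theorem step_old {s : List ℕ} (h : rr s ≠ 0) (e : ℕ) :
    bb (e :: s) = bb s ∧ MM (e :: s) = MM s ∧ rr (e :: s) + 1 = rr s ∧ cc (e :: s) = cc s := by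
  obtain ⟨r, hr⟩ := Nat.exists_eq_succ_of_ne_zero h
  have h1 : st (e :: s) = (bb s, MM s, r) := by
    rw [st_cons, st_eq s, hr]
    rfl
  refine ⟨?_, ?_, ?_, ?_⟩
  · unfold bb; rw [h1]; rfl
  · unfold MM; rw [h1]; rfl
  · rw [hr]; unfold rr; rw [h1]
  · rw [cc_cons, if_neg h]

/-- the step starts a new coordinate of the same block -/
theorem step_coord {s : List ℕ} (h : rr s = 0) (h' : MM s ≠ 0) (e : ℕ) :
    bb (e :: s) = bb s ∧ MM (e :: s) + 1 = MM s ∧ rr (e :: s) = e ∧ cc (e :: s) = cc s + 1 := by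
  obtain ⟨M, hM⟩ := Nat.exists_eq_succ_of_ne_zero h'
  have h1 : st (e :: s) = (bb s, M, e) := by
    rw [st_cons, st_eq s, hM, h]
    rfl
  refine ⟨?_, ?_, ?_, ?_⟩
  · unfold bb; rw [h1]; rfl
  · rw [hM]; unfold MM; rw [h1]
  · unfold rr; rw [h1]
  · rw [cc_cons, if_pos h]

/-- the step starts a new block -/
theorem step_block {s : List ℕ} (h : rr s = 0) (h' : MM s = 0) (e : ℕ) :
    bb (e :: s) = bb s + 1 ∧ MM (e :: s) = e ∧ rr (e :: s) = 0 ∧ cc (e :: s) = cc s + 1 := by
  have h1 : st (e :: s) = (bb s + 1, e, 0) := by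
    rw [st_cons, st_eq s, h', h]
    rfl
  refine ⟨?_, ?_, ?_, ?_⟩
  · unfold bb; rw [h1]; rfl
  · unfold MM; rw [h1]
  · unfold rr; rw [h1]
  · rw [cc_cons, if_pos h]

/-- The three kinds of steps. -/
theorem step_cases (e : ℕ) (s : List ℕ) :
    (rr s ≠ 0 ∧ bb (e :: s) = bb s ∧ MM (e :: s) = MM s ∧ rr (e :: s) + 1 = rr s ∧
      cc (e :: s) = cc s) ∨
    (rr s = 0 ∧ MM s ≠ 0 ∧ bb (e :: s) = bb s ∧ MM (e :: s) + 1 = MM s ∧ rr (e :: s) = e ∧
      cc (e :: s) = cc s + 1) ∨
    (rr s = 0 ∧ MM s = 0 ∧ bb (e :: s) = bb s + 1 ∧ MM (e :: s) = e ∧ rr (e :: s) = 0 ∧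
      cc (e :: s) = cc s + 1) := by
  by_cases h : rr s = 0
  · by_cases h' : MM s = 0
    · exact Or.inr (Or.inr ⟨h, h', step_block h h' e⟩)
    · exact Or.inr (Or.inl ⟨h, h', step_coord h h' e⟩)
  · exact Or.inl ⟨h, step_old h e⟩

theorem bb_mono {s z : List ℕ} (h : s <:+ z) : bb s ≤ bb z := by
  obtain ⟨l, rfl⟩ := h
  induction l with
  | nil => exact le_rfl
  | cons e l ih =>
    rw [List.cons_append]
    rcases step_cases e (l ++ s) with h | h | h <;> omega

theorem cc_mono {s z : List ℕ} (h : s <:+ z) : cc s ≤ cc z := by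
  obtain ⟨l, rfl⟩ := h
  induction l with
  | nil => exact le_rfl
  | cons e l ih =>
    rw [List.cons_append]
    rcases step_cases e (l ++ s) with h | h | h <;> omega

theorem bb_pos (e : ℕ) (s : List ℕ) : 0 < bb (e :: s) := by
  induction s generalizing e with
  | nil =>
    have := step_block (s := []) rfl rfl e
    omega
  | cons e' s ih =>
    have h1 := ih e'
    have h2 := bb_mono (List.suffix_cons e (e' :: s))
    omega

theorem bb_pos_of_ne {s : List ℕ} (h : s ≠ []) : 0 < bb s := by
  cases s with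
  | nil => exact absurd rfl h
  | cons e s => exact bb_pos e s

theorem cc_pos_of_ne {s : List ℕ} (h : s ≠ []) : 0 < cc s := by
  cases s with
  | nil => exact absurd rfl h
  | cons e s => exact cc_pos e s

/-- within a block, each new coordinate uses up one of the `MM` remaining ones -/
theorem cc_add_MM {s z : List ℕ} (h : s <:+ z) (hb : bb s = bb z) :
    cc z + MM z = cc s + MM s := by
  obtain ⟨l, rfl⟩ := h
  induction l with
  | nil => rfl
  | cons e l ih =>
    rw [List.cons_append] at hb ⊢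
    have h1 : bb s ≤ bb (l ++ s) := bb_mono (List.suffix_append l s)
    rcases step_cases e (l ++ s) with h | h | h
    · have := ih (by omega); omega
    · have := ih (by omega); omega
    · omega

/-- within a coordinate the number of entries to come decreases with each step -/
theorem rr_add_length {s z : List ℕ} (h : s <:+ z) (hc : cc s = cc z) :
    rr z + z.length = rr s + s.length ∧ bb z = bb s ∧ MM z = MM s := by
  obtain ⟨l, rfl⟩ := h
  induction l with
  | nil => exact ⟨rfl, rfl, rfl⟩
  | cons e l ih =>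
    rw [List.cons_append] at hc ⊢
    have h1 : cc s ≤ cc (l ++ s) := cc_mono (List.suffix_append l s)
    rcases step_cases e (l ++ s) with h | h | h
    · have := ih (by omega)
      rw [List.length_cons]
      omega
    · omega
    · omega

theorem suffix_of_bb_lt {s t w : List ℕ} (hs : s <:+ w) (ht : t <:+ w) (h : bb s < bb t) :
    s <:+ t := by
  rcases suffix_total hs ht with h1 | h1
  · exact h1
  · exact absurd (bb_mono h1) (not_le.2 h)

theorem suffix_of_cc_lt {s t w : List ℕ} (hs : s <:+ w) (ht : t <:+ w) (h : cc s < cc t) :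
    s <:+ t := by
  rcases suffix_total hs ht with h1 | h1
  · exact h1
  · exact absurd (cc_mono h1) (not_le.2 h)

/-! ## `trb` -/

theorem trb_suffix (m : ℕ) (s : List ℕ) : trb m s <:+ s := tr_suffix _ s

theorem bb_trb (m : ℕ) (s : List ℕ) : bb (trb m s) ≤ m := by
  rcases tr_spec (fun w => bb w ≤ m) s with h | h
  · unfold trb
    rw [h, bb_nil]
    exact Nat.zero_le _
  · exact h

theorem trb_of_le {m : ℕ} {s : List ℕ} (h : bb s ≤ m) : trb m s = s :=
  tr_self (P := fun w => bb w ≤ m) h

theorem suffix_trb_iff {m : ℕ} {s t : List ℕ} : t <:+ trb m s ↔ t <:+ s ∧ bb t ≤ m := by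
  constructor
  · intro h
    exact ⟨h.trans (trb_suffix m s), (bb_mono h).trans (bb_trb m s)⟩
  · rintro ⟨h1, h2⟩
    exact tr_max (P := fun w => bb w ≤ m) h1 h2

theorem trb_trb {m m' : ℕ} (h : m ≤ m') (s : List ℕ) : trb m (trb m' s) = trb m s :=
  tr_comp (P := fun w => bb w ≤ m) (P' := fun w => bb w ≤ m') (fun _ hw => le_trans hw h) s

theorem trb_zero (s : List ℕ) : trb 0 s = [] := by
  have h := bb_trb 0 s
  by_contra h1
  have := bb_pos_of_ne h1
  omega

/-! ## The order of the nodes -/

theorem Nd.ext' {x y : Nd} (hR : x.R = y.R) (hj : x.j = y.j) (hi : x.i = y.i) (hs : x.s = y.s)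
    (ha : x.a = y.a) : x = y := by
  cases x; cases y
  simp only at hR hj hi hs ha
  subst hR hj hi hs ha
  rfl

theorem Nd.filter_self (x : Nd) : x.a.filter (· < cc x.s) = x.a :=
  Finset.filter_true_of_mem x.ha

theorem Nd.le_def {x y : Nd} : x ≤ y ↔
    x.R = y.R ∧ x.j = y.j ∧ x.i = y.i ∧ x.s <:+ y.s ∧ x.a = y.a.filter (· < cc x.s) := Iff.rfl

instance : PartialOrder Nd where
  le := (· ≤ ·)
  le_refl x := ⟨rfl, rfl, rfl, List.suffix_rfl, x.filter_self.symm⟩
  le_trans x y z h1 h2 := by
    obtain ⟨a1, a2, a3, a4, a5⟩ := h1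
    obtain ⟨b1, b2, b3, b4, b5⟩ := h2
    refine ⟨a1.trans b1, a2.trans b2, a3.trans b3, a4.trans b4, ?_⟩
    rw [a5, b5, Finset.filter_filter]
    have := cc_mono a4
    apply Finset.filter_congr
    intro u _
    omega
  le_antisymm x y h1 h2 := by
    obtain ⟨a1, a2, a3, a4, a5⟩ := h1
    obtain ⟨b1, b2, b3, b4, b5⟩ := h2
    have hs := suffix_antisymm a4 b4
    refine Nd.ext' a1 a2 a3 hs ?_
    rw [a5, hs, y.filter_self]

theorem K.oo_le (x : K) : (K.oo : K) ≤ x := by
  cases x <;> trivial

theorem K.pt_le_pt {x y : Nd} : (K.pt x : K) ≤ K.pt y ↔ x ≤ y := Iff.rfl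

theorem K.not_pt_le_oo {x : Nd} : ¬ (K.pt x : K) ≤ K.oo := fun h => h

instance : PartialOrder K where
  le := (· ≤ ·)
  le_refl x := by
    cases x with
    | oo => trivial
    | pt x => exact K.pt_le_pt.2 le_rfl
  le_trans x y z h1 h2 := by
    cases x with
    | oo => exact K.oo_le z
    | pt x =>
      cases y with
      | oo => exact absurd h1 K.not_pt_le_oo
      | pt y =>
        cases z with
        | oo => exact absurd h2 K.not_pt_le_oo
        | pt z => exact K.pt_le_pt.2 (le_trans (K.pt_le_pt.1 h1) (K.pt_le_pt.1 h2))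
  le_antisymm x y h1 h2 := by
    cases x with
    | oo =>
      cases y with
      | oo => rfl
      | pt y => exact absurd h2 K.not_pt_le_oo
    | pt x =>
      cases y with
      | oo => exact absurd h1 K.not_pt_le_oo
      | pt y => rw [le_antisymm (K.pt_le_pt.1 h1) (K.pt_le_pt.1 h2)]

instance : OrderBot K where
  bot := .oo
  bot_le := K.oo_le

end Pool.Agent.Work.MP_c93117_an.Neg
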