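import Mathlib

/-!
# Project Neg (MP_c93117_an): definitions

A complemented subspace of `C(K)`, `K` countable compact metric, not isomorphic to a `C(L)`.
See PROOF.md. Words are lists of natural numbers which grow at the FRONT (the head is the last
step); an initial part of the play `s` is a list suffix `t <:+ s`.
-/

set_option autoImplicit false

noncomputable section

open Finset Polynomial

namespace Pool.Agent.Work.MP_c93117_an.Neg

/-! ## The word machine -/

/-- One step of the machine. State `(b, M, r)`: `b` blocks started, `M` coordinates of the current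
block still to be started, `r` entries of the current coordinate still to come. -/
def stp : ℕ × ℕ × ℕ → ℕ → ℕ × ℕ × ℕ
  | (b, M, r + 1), _ => (b, M, r)
  | (b, M + 1, 0), e => (b, M, e)
  | (b, 0, 0), e => (b + 1, e, 0)

/-- The state after the play `s`. -/
def st : List ℕ → ℕ × ℕ × ℕ
  | [] => (0, 0, 0)
  | e :: s => stp (st s) e

/-- number of blocks started -/
def bb (s : List ℕ) : ℕ := (st s).1
/-- number of coordinates of the current block still to be started -/
def MM (s : List ℕ) : ℕ := (st s).2.1
/-- number of entries of the current coordinate still to come -/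
def rr (s : List ℕ) : ℕ := (st s).2.2

/-- number of coordinates started -/
def cc : List ℕ → ℕ
  | [] => 0
  | _ :: s => if rr s = 0 then cc s + 1 else cc s

open Classical in
/-- The longest nonempty suffix satisfying `P` (the empty list if there is none). -/
def tr (P : List ℕ → Prop) : List ℕ → List ℕ
  | [] => []
  | e :: s => if P (e :: s) then e :: s else tr P s

/-- initial part with at most `m` blocks started -/
def trb (m : ℕ) : List ℕ → List ℕ := tr (fun w => bb w ≤ m)

/-- the last step of `w` is in a block of the dyadic interval `(R,j,i)` and in a coordinate in `a` -/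
def sn (R j i : ℕ) (a : Finset ℕ) (w : List ℕ) : Prop :=
  (bb w - 1) / 2 ^ (R - j) = i ∧ cc w - 1 ∈ a

/-- the last seen initial part -/
def loc (R j i : ℕ) (a : Finset ℕ) : List ℕ → List ℕ := tr (sn R j i a)

/-! ## The function model -/

/-- functions of a word and a finite set of selected coordinates -/
abbrev FF := List ℕ → Finset ℕ → ℝ

/-- thinning with retention probability `p` -/
def Qop (p : ℝ) : Module.End ℝ FF where
  toFun F := fun s a => ∑ b ∈ a.powerset, p ^ b.card * (1 - p) ^ (a \ b).card * F s b
  map_add' F G := by
    funext s a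
    simp only [Pi.add_apply, mul_add, Finset.sum_add_distrib]
  map_smul' c F := by
    funext s a
    simp only [Pi.smul_apply, smul_eq_mul, RingHom.id_apply, Finset.mul_sum]
    exact Finset.sum_congr rfl (fun b _ => by ring)

/-- increment along the blocks of the dyadic interval `(R,j,i)` -/
def Dop (R j i : ℕ) : Module.End ℝ FF where
  toFun F := fun s a => F (trb ((i + 1) * 2 ^ (R - j)) s) a - F (trb (i * 2 ^ (R - j)) s) a
  map_add' F G := by
    funext s a
    simp only [Pi.add_apply]
    ring
  map_smul' c F := by
    funext s a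
    simp only [Pi.smul_apply, smul_eq_mul, RingHom.id_apply]
    ring

/-- the retention probability of the thinning in the part `R` of the space -/
def pR (R : ℕ) : ℝ := 1 - 1 / (2 * 8 ^ R)

/-- the polynomial of the averaging operator of level `j` -/
def epsP (R j : ℕ) : ℝ[X] :=
  if j < R then C (1 / (8 : ℝ) ^ (R - j)) * ∑ r ∈ range (8 ^ (R - j)), X ^ (r + 1) else 1

/-- the polynomial `prod_{l<j} (1 - eps_l)` -/
def PiP (R j : ℕ) : ℝ[X] := ∏ l ∈ range j, (1 - epsP R l)

/-- a polynomial in the thinning operator -/
def op (R : ℕ) (f : ℝ[X]) : Module.End ℝ FF := aeval (Qop (pR R)) f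

/-! ## The space `K` -/

/-- nodes of the tree, apart from the point at infinity -/
structure Nd where
  R : ℕ
  j : ℕ
  i : ℕ
  s : List ℕ
  a : Finset ℕ
  hj : j ≤ R
  hi : i < 2 ^ j
  ha : ∀ x ∈ a, x < cc s
  hs : s = [] ∨ sn R j i a s

/-- the order of the nodes -/
instance : LE Nd where
  le x y := x.R = y.R ∧ x.j = y.j ∧ x.i = y.i ∧ x.s <:+ y.s ∧ x.a = y.a.filter (· < cc x.s)

/-- the points of the space: the point at infinity and the nodes -/
inductive K where
  | oo : K
  | pt : Nd → K

instance : LE K where
  le x y := match x, y with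
    | .oo, _ => True
    | .pt _, .oo => False
    | .pt x, .pt y => x ≤ y

open Classical in
/-- the topology generated by the cones and their complements -/
@[instance_reducible] def coneTop (V : Type) [LE V] : TopologicalSpace V :=
  TopologicalSpace.induced (fun (v : V) (u : V) => decide (u ≤ v)) Pi.topologicalSpace

instance : TopologicalSpace K := coneTop K

/-- the node of the initial part seen by `a` -/
theorem nd_ha (R j i : ℕ) (s : List ℕ) (a : Finset ℕ) :
    ∀ x ∈ a.filter (· < cc (loc R j i a s)), x < cc (loc R j i a s) := by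
  intro x hx
  exact (Finset.mem_filter.1 hx).2

theorem rr_nil : rr [] = 0 := rfl

theorem cc_pos (e : ℕ) (s : List ℕ) : 0 < cc (e :: s) := by
  cases s with
  | nil => simp [cc, rr_nil]
  | cons e' s =>
    have h := cc_pos e' s
    rw [cc]
    split_ifs
    · omega
    · exact h

theorem tr_spec (P : List ℕ → Prop) (s : List ℕ) : tr P s = [] ∨ P (tr P s) := by
  induction s with
  | nil => exact Or.inl rfl
  | cons e s ih =>
    unfold tr
    split_ifs with h
    · exact Or.inr h
    · exact ih

theorem nd_hs (R j i : ℕ) (s : List ℕ) (a : Finset ℕ) :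
    loc R j i a s = [] ∨ sn R j i (a.filter (· < cc (loc R j i a s))) (loc R j i a s) := by
  rcases h : loc R j i a s with _ | ⟨e, w⟩
  · exact Or.inl rfl
  · right
    have h1 : sn R j i a (loc R j i a s) := by
      rcases tr_spec (sn R j i a) s with h2 | h2
      · exfalso
        unfold loc at h
        rw [h2] at h
        cases h
      · exact h2
    rw [h] at h1
    refine ⟨h1.1, ?_⟩
    rw [Finset.mem_filter]
    refine ⟨h1.2, ?_⟩
    have := cc_pos e w
    omega

open Classical in
/-- the node of the initial part of `s` seen by `a` in the component `(R,j,i)` -/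
def nd (R j i : ℕ) (s : List ℕ) (a : Finset ℕ) : K :=
  if h : j ≤ R ∧ i < 2 ^ j then
    .pt ⟨R, j, i, loc R j i a s, a.filter (· < cc (loc R j i a s)), h.1, h.2,
      nd_ha R j i s a, nd_hs R j i s a⟩
  else .oo

/-! ## The projection -/

/-- the function of the function model given by the component `(R,j,i)` of `g` -/
def lft (g : K → ℝ) (R j i : ℕ) : FF := fun s a => g (nd R j i s a)

/-- the function `f_R(g)` -/
def fR (g : K → ℝ) (R : ℕ) : FF :=
  ∑ j ∈ range (R + 1), ((1 / 4 : ℝ) ^ j) • op R (epsP R j) (∑ i ∈ range (2 ^ j), lft g R j i)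

/-- the component `(R,j,i)` of `P g` -/
def rowF (g : K → ℝ) (R j i : ℕ) : FF :=
  ((4 : ℝ) ^ j) • Dop R j i (op R (PiP R j) (fR g R))

/-- the projection, on all functions on `K` -/
def PP (g : K → ℝ) : K → ℝ
  | .oo => 0
  | .pt x => rowF g x.R x.j x.i x.s x.a

/-! ## Finite approximations -/

/-- finite data: a finite set of words closed under suffixes, and a bound for `R` -/
structure FD where
  B : Finset (List ℕ)
  R0 : ℕ
  cl : ∀ s t : List ℕ, s ∈ B → t <:+ s → t ∈ B

instance : LE FD where
  le F G := F.B ⊆ G.B ∧ F.R0 ≤ G.R0

/-- the longest initial part in `F.B` -/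
def trB (F : FD) : List ℕ → List ℕ := tr (fun w => w ∈ F.B)

/-- the retraction of `K` given by finite data -/
def piF (F : FD) : K → K
  | .oo => .oo
  | .pt x => if x.R ≤ F.R0 then nd x.R x.j x.i (trB F x.s) x.a else .oo

/-- depth, capped at 2 -/
def dp : K → ℕ
  | .oo => 0
  | .pt x => if x.s = [] then 1 else 2

/-- the bad part of the space: `R ≤ R0` and level `j < R` (thinned components) -/
def low (R0 : ℕ) : K → Prop
  | .oo => False
  | .pt x => x.R ≤ R0 ∧ x.j < x.R

/-- the indicator of `{(R,0,0,z,a) : s is an initial part of z, the last step of s is seen}` -/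
def gs (R : ℕ) (s : List ℕ) : K → ℝ
  | .oo => 0
  | .pt x => open Classical in
      if x.R = R ∧ x.j = 0 ∧ s <:+ x.s ∧ cc s - 1 ∈ x.a then 1 else 0

/-! ## The derived sets of `L` -/

/-- the index set of the derived sets: triples of natural numbers in lexicographic order -/
abbrev Gam := ℕ ×ₗ ℕ ×ₗ ℕ

/-- the triple `(b, m, r)` -/
def tp (b m r : ℕ) : Gam := toLex (b, toLex (m, r))

/-- The derived sets: `p ∈ DD L x` iff `p` is an accumulation point of `DD L y` for all `y < x`. -/
def DD (L : Type) [TopologicalSpace L] : Gam → Set L :=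
  WellFounded.fix (wellFounded_lt : WellFounded ((· < ·) : Gam → Gam → Prop))
    (fun x ih => {p | ∀ (y : Gam) (h : y < x), AccPt p (Filter.principal (ih y h))})

theorem mem_DD {L : Type} [TopologicalSpace L] {x : Gam} {p : L} :
    p ∈ DD L x ↔ ∀ y : Gam, y < x → AccPt p (Filter.principal (DD L y)) := by
  unfold DD
  rw [WellFounded.fix_eq]
  rfl

end Pool.Agent.Work.MP_c93117_an.Neg
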