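import Pool.Agent.Work.MP_c93117_an.Neg.St

/-!
# Project Neg: item Dense (combinations of cone indicators are dense)
-/

set_option autoImplicit false

noncomputable section

open Finset Polynomial

namespace Pool.Agent.Work.MP_c93117_an.Neg

namespace AuxDense

theorem ind_cont (u : K) : Continuous (ind u) := by
  classical
  unfold ind
  have h : IsClopen {v : K | u ≤ v} := cone_clopen K u
  apply Continuous.if
  · intro a ha
    rw [h.frontier_eq] at ha
    exact absurd ha (Set.notMem_empty a)
  · exact continuous_const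
  · exact continuous_const

/-- the indicator as a continuous map -/
def indC (u : K) : C(K, ℝ) := ⟨ind u, ind_cont u⟩

theorem indC_apply (u q : K) : indC u q = ind u q := rfl

theorem ind_one {u q : K} (h : u ≤ q) : ind u q = 1 := by
  unfold ind
  rw [if_pos h]

theorem ind_zero {u q : K} (h : ¬ u ≤ q) : ind u q = 0 := by
  unfold ind
  rw [if_neg h]

theorem mul_le {u v : K} (h : v ≤ u) : indC u * indC v = indC u := by
  ext q
  rw [ContinuousMap.mul_apply, indC_apply, indC_apply]
  by_cases h1 : u ≤ q
  · rw [ind_one h1, ind_one (h.trans h1), one_mul]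
  · rw [ind_zero h1, zero_mul]

theorem mul_cases (u v : K) :
    indC u * indC v = indC u ∨ indC u * indC v = indC v ∨ indC u * indC v = 0 := by
  by_cases h1 : v ≤ u
  · exact Or.inl (mul_le h1)
  · by_cases h2 : u ≤ v
    · right; left
      rw [mul_comm]
      exact mul_le h2
    · right; right
      ext q
      rw [ContinuousMap.mul_apply, indC_apply, indC_apply, ContinuousMap.zero_apply]
      by_cases h3 : u ≤ q
      · by_cases h4 : v ≤ q
        · rcases K.chain u v q h3 h4 with h5 | h5
          · exact absurd h5 h2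
          · exact absurd h5 h1
        · rw [ind_zero h4, mul_zero]
      · rw [ind_zero h3, zero_mul]

theorem one_eq : (1 : C(K, ℝ)) = indC K.oo := by
  ext q
  rw [ContinuousMap.one_apply, indC_apply, ind_one (K.oo_le q)]

/-- the multiplicative set of the indicators and zero -/
def M : Submonoid C(K, ℝ) where
  carrier := {f | f = 0 ∨ ∃ u, f = indC u}
  one_mem' := Or.inr ⟨K.oo, one_eq⟩
  mul_mem' := by
    rintro f g (rfl | ⟨u, rfl⟩) hg
    · left
      rw [zero_mul]
    · rcases hg with rfl | ⟨v, rfl⟩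
      · left
        rw [mul_zero]
      · rcases mul_cases u v with h | h | h
        · exact Or.inr ⟨u, h⟩
        · exact Or.inr ⟨v, h⟩
        · exact Or.inl h

theorem adjoin_le {f : C(K, ℝ)} (hf : f ∈ Algebra.adjoin ℝ (Set.range indC)) :
    f ∈ Submodule.span ℝ (Set.range indC) := by
  have h1 : f ∈ Subalgebra.toSubmodule (Algebra.adjoin ℝ (Set.range indC)) := hf
  rw [Algebra.adjoin_eq_span] at h1
  have h2 : Submodule.span ℝ (Submonoid.closure (Set.range indC) : Set C(K, ℝ)) ≤
      Submodule.span ℝ (Set.range indC) := by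
    rw [Submodule.span_le]
    intro g hg
    have h3 : Submonoid.closure (Set.range indC) ≤ M := by
      rw [Submonoid.closure_le]
      rintro _ ⟨u, rfl⟩
      exact Or.inr ⟨u, rfl⟩
    rcases h3 hg with h4 | ⟨u, h4⟩
    · rw [h4]
      exact Submodule.zero_mem _
    · rw [h4]
      exact Submodule.subset_span ⟨u, rfl⟩
  exact h2 h1

theorem separates : (Algebra.adjoin ℝ (Set.range indC)).SeparatesPoints := by
  intro x y hxy
  by_cases h : x ≤ y
  · have h2 : ¬ y ≤ x := fun h3 => hxy (le_antisymm h h3)
    refine ⟨indC y, ⟨indC y, Algebra.subset_adjoin ⟨y, rfl⟩, rfl⟩, ?_⟩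
    rw [indC_apply, indC_apply, ind_zero h2, ind_one le_rfl]
    exact zero_ne_one
  · refine ⟨indC x, ⟨indC x, Algebra.subset_adjoin ⟨x, rfl⟩, rfl⟩, ?_⟩
    rw [indC_apply, indC_apply, ind_zero h, ind_one le_rfl]
    exact one_ne_zero

end AuxDense

open AuxDense in
theorem pr_Dense : StDense := by
  intro f hf η hη
  obtain ⟨g, hg⟩ := ContinuousMap.exists_mem_subalgebra_near_continuousMap_of_separatesPoints
    (Algebra.adjoin ℝ (Set.range indC)) separates (⟨f, hf⟩ : C(K, ℝ)) η hη
  obtain ⟨c, hc⟩ := Finsupp.mem_span_range_iff_exists_finsupp.1 (adjoin_le g.2)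
  refine ⟨c.support, c, fun q => ?_⟩
  have h1 : ((g : C(K, ℝ)) - (⟨f, hf⟩ : C(K, ℝ))) q = ∑ u ∈ c.support, c u * ind u q - f q := by
    rw [ContinuousMap.sub_apply, ← hc]
    congr 1
    rw [Finsupp.sum, ContinuousMap.coe_sum, Finset.sum_apply]
    exact Finset.sum_congr rfl (fun u _ => rfl)
  have h2 := ContinuousMap.norm_coe_le_norm ((g : C(K, ℝ)) - (⟨f, hf⟩ : C(K, ℝ))) q
  rw [h1, Real.norm_eq_abs, abs_sub_comm] at h2
  exact h2.trans hg.le

end Pool.Agent.Work.MP_c93117_an.Neg
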