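import Pool.Agent.Work.MP_c93117_an.Neg.Space

/-!
# Project Neg: lemmas on `loc` and `nd`, admissible functions, linearity of `PP`
-/

set_option autoImplicit false

noncomputable section

open Finset

namespace Pool.Agent.Work.MP_c93117_an.Neg

theorem loc_suffix (R j i : ℕ) (a : Finset ℕ) (s : List ℕ) : loc R j i a s <:+ s := tr_suffix _ s

theorem loc_spec (R j i : ℕ) (a : Finset ℕ) (s : List ℕ) :
    loc R j i a s = [] ∨ sn R j i a (loc R j i a s) := tr_spec _ s

theorem loc_max {R j i : ℕ} {a : Finset ℕ} {s t : List ℕ} (h : t <:+ s) (ht : sn R j i a t) :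
    t <:+ loc R j i a s := tr_max h ht

theorem loc_seen {R j i : ℕ} {a : Finset ℕ} {s : List ℕ} (h : sn R j i a s) :
    loc R j i a s = s := tr_self h

theorem loc_unseen {R j i e : ℕ} {a : Finset ℕ} {s : List ℕ} (h : ¬ sn R j i a (e :: s)) :
    loc R j i a (e :: s) = loc R j i a s := tr_neg h

theorem loc_loc (R j i : ℕ) (a : Finset ℕ) (s : List ℕ) :
    loc R j i a (loc R j i a s) = loc R j i a s := tr_tr _ s

theorem loc_nil (R j i : ℕ) (a : Finset ℕ) : loc R j i a [] = [] := rfl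

/-- `tr` only depends on the predicate on nonempty suffixes -/
theorem tr_congr {P P' : List ℕ → Prop} {s : List ℕ}
    (h : ∀ t, t ≠ [] → t <:+ s → (P t ↔ P' t)) : tr P s = tr P' s := by
  induction s with
  | nil => rfl
  | cons e s ih =>
    have ih' := ih (fun t ht hts => h t ht (hts.trans (List.suffix_cons e s)))
    have h1 := h (e :: s) (List.cons_ne_nil e s) List.suffix_rfl
    by_cases h2 : P (e :: s)
    · rw [tr_pos h2, tr_pos (h1.1 h2)]
    · rw [tr_neg h2, tr_neg (fun h3 => h2 (h1.2 h3)), ih']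

theorem sn_congr {R j i : ℕ} {a a' : Finset ℕ} {w : List ℕ} (hw : w ≠ [])
    (h : ∀ x, x < cc w → (x ∈ a ↔ x ∈ a')) : sn R j i a w ↔ sn R j i a' w := by
  unfold sn
  have := cc_pos_of_ne hw
  rw [h (cc w - 1) (by omega)]

theorem loc_congr {R j i : ℕ} {a a' : Finset ℕ} {s : List ℕ}
    (h : ∀ x, x < cc s → (x ∈ a ↔ x ∈ a')) : loc R j i a s = loc R j i a' s :=
  tr_congr (fun _ ht hts => sn_congr ht (fun x hx => h x (lt_of_lt_of_le hx (cc_mono hts))))

/-- the node `nd` in a valid component -/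
theorem nd_eq {R j i : ℕ} (h : j ≤ R ∧ i < 2 ^ j) (s : List ℕ) (a : Finset ℕ) :
    nd R j i s a = .pt ⟨R, j, i, loc R j i a s, a.filter (· < cc (loc R j i a s)), h.1, h.2,
      nd_ha R j i s a, nd_hs R j i s a⟩ := by
  unfold nd
  rw [dif_pos h]

theorem nd_invalid {R j i : ℕ} (h : ¬ (j ≤ R ∧ i < 2 ^ j)) (s : List ℕ) (a : Finset ℕ) :
    nd R j i s a = .oo := by
  unfold nd
  rw [dif_neg h]

theorem nd_ext {R j i : ℕ} {s s' : List ℕ} {a a' : Finset ℕ}
    (h1 : loc R j i a s = loc R j i a' s')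
    (h2 : a.filter (· < cc (loc R j i a s)) = a'.filter (· < cc (loc R j i a s))) :
    nd R j i s a = nd R j i s' a' := by
  by_cases h : j ≤ R ∧ i < 2 ^ j
  · rw [nd_eq h, nd_eq h]
    congr 1
    refine Nd.ext' rfl rfl rfl h1 ?_
    show a.filter (· < cc (loc R j i a s)) = a'.filter (· < cc (loc R j i a' s'))
    rw [← h1]
    exact h2
  · rw [nd_invalid h, nd_invalid h]

theorem nd_congr {R j i : ℕ} {s : List ℕ} {a a' : Finset ℕ}
    (h : ∀ x, x < cc s → (x ∈ a ↔ x ∈ a')) : nd R j i s a = nd R j i s a' := by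
  apply nd_ext (loc_congr h)
  ext x
  simp only [Finset.mem_filter]
  constructor
  · rintro ⟨h1, h2⟩
    exact ⟨(h x (lt_of_lt_of_le h2 (cc_mono (loc_suffix R j i a s)))).1 h1, h2⟩
  · rintro ⟨h1, h2⟩
    exact ⟨(h x (lt_of_lt_of_le h2 (cc_mono (loc_suffix R j i a s)))).2 h1, h2⟩

theorem nd_filter (R j i : ℕ) (s : List ℕ) (a : Finset ℕ) :
    nd R j i s (a.filter (· < cc s)) = nd R j i s a := by
  apply nd_congr
  intro x hx
  simp [hx]

theorem nd_of_loc_eq {R j i : ℕ} {s s' : List ℕ} {a : Finset ℕ}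
    (h : loc R j i a s = loc R j i a s') : nd R j i s a = nd R j i s' a :=
  nd_ext h rfl

theorem nd_unseen {R j i e : ℕ} {a : Finset ℕ} {s : List ℕ} (h : ¬ sn R j i a (e :: s)) :
    nd R j i (e :: s) a = nd R j i s a :=
  nd_of_loc_eq (loc_unseen h)

theorem nd_loc (R j i : ℕ) (a : Finset ℕ) (s : List ℕ) :
    nd R j i (loc R j i a s) a = nd R j i s a :=
  nd_of_loc_eq (loc_loc R j i a s)

theorem Nd.loc_self (x : Nd) : loc x.R x.j x.i x.a x.s = x.s := by
  rcases x.hs with h | h
  · rw [h]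
    rfl
  · exact loc_seen h

theorem nd_pt (x : Nd) : nd x.R x.j x.i x.s x.a = .pt x := by
  rw [nd_eq ⟨x.hj, x.hi⟩]
  congr 1
  refine Nd.ext' rfl rfl rfl x.loc_self ?_
  show x.a.filter (· < cc (loc x.R x.j x.i x.a x.s)) = x.a
  rw [x.loc_self]
  exact x.filter_self

/-- the word of a nonroot node is seen -/
theorem pt_le_nd {u : Nd} {R j i : ℕ} {s : List ℕ} {a : Finset ℕ} :
    K.pt u ≤ nd R j i s a ↔ (j ≤ R ∧ i < 2 ^ j) ∧ u.R = R ∧ u.j = j ∧ u.i = i ∧ u.s <:+ s ∧
      u.a = a.filter (· < cc u.s) := by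
  by_cases h : j ≤ R ∧ i < 2 ^ j
  · rw [nd_eq h, K.pt_le_pt, Nd.le_def]
    constructor
    · rintro ⟨h1, h2, h3, h4, h5⟩
      refine ⟨h, h1, h2, h3, h4.trans (loc_suffix R j i a s), ?_⟩
      rw [h5]
      show (a.filter (· < cc (loc R j i a s))).filter (· < cc u.s) = a.filter (· < cc u.s)
      rw [Finset.filter_filter]
      have := cc_mono h4
      apply Finset.filter_congr
      intro x _
      show x < cc (loc R j i a s) ∧ x < cc u.s ↔ x < cc u.s
      have h6 : cc u.s ≤ cc (loc R j i a s) := this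
      omega
    · rintro ⟨-, h1, h2, h3, h4, h5⟩
      have h6 : u.s <:+ loc R j i a s := by
        rcases u.hs with h7 | h7
        · rw [h7]
          exact List.nil_suffix
        · refine loc_max h4 ?_
          by_cases h8 : u.s = []
          · exfalso
            have h9 := u.ha (cc u.s - 1) h7.2
            rw [h8, cc_nil] at h9
            omega
          · rw [h1, h2, h3, h5] at h7
            exact ⟨h7.1, (Finset.mem_filter.1 h7.2).1⟩
      refine ⟨h1, h2, h3, h6, ?_⟩
      rw [h5]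
      show a.filter (· < cc u.s) = (a.filter (· < cc (loc R j i a s))).filter (· < cc u.s)
      rw [Finset.filter_filter]
      have := cc_mono h6
      apply Finset.filter_congr
      intro x _
      omega
  · rw [nd_invalid h]
    constructor
    · intro h1
      exact absurd h1 K.not_pt_le_oo
    · intro h1
      exact absurd h1.1 h

/-! ## Admissible functions -/

/-- `F s a` depends only on the selected started coordinates -/
def A1 (F : FF) : Prop := ∀ (s : List ℕ) (a : Finset ℕ), F s (a.filter (· < cc s)) = F s a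

/-- unseen steps do not change the value -/
def A2 (F : FF) : Prop := ∀ (e : ℕ) (s : List ℕ) (a : Finset ℕ), cc (e :: s) - 1 ∉ a →
  F (e :: s) a = F s a

theorem lft_A1 (g : K → ℝ) (R j i : ℕ) : A1 (lft g R j i) := by
  intro s a
  unfold lft
  rw [nd_filter]

theorem lft_A2 (g : K → ℝ) (R j i : ℕ) : A2 (lft g R j i) := by
  intro e s a h
  unfold lft
  rw [nd_unseen (fun h1 => h h1.2)]

/-! ## Linearity -/

theorem lft_add (g h : K → ℝ) (R j i : ℕ) : lft (g + h) R j i = lft g R j i + lft h R j i := rfl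

theorem lft_smul (c : ℝ) (g : K → ℝ) (R j i : ℕ) : lft (c • g) R j i = c • lft g R j i := rfl

theorem fR_add (g h : K → ℝ) (R : ℕ) : fR (g + h) R = fR g R + fR h R := by
  unfold fR
  rw [← Finset.sum_add_distrib]
  apply Finset.sum_congr rfl
  intro j _
  rw [← smul_add, ← map_add, ← Finset.sum_add_distrib]
  rfl

theorem fR_smul (c : ℝ) (g : K → ℝ) (R : ℕ) : fR (c • g) R = c • fR g R := by
  unfold fR
  rw [Finset.smul_sum]
  apply Finset.sum_congr rfl
  intro j _
  have h : (∑ i ∈ range (2 ^ j), lft (c • g) R j i) = c • ∑ i ∈ range (2 ^ j), lft g R j i := by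
    rw [Finset.smul_sum]
    rfl
  rw [h, map_smul, smul_comm]

theorem rowF_add (g h : K → ℝ) (R j i : ℕ) : rowF (g + h) R j i = rowF g R j i + rowF h R j i := by
  unfold rowF
  rw [fR_add, map_add, map_add, smul_add]

theorem rowF_smul (c : ℝ) (g : K → ℝ) (R j i : ℕ) : rowF (c • g) R j i = c • rowF g R j i := by
  unfold rowF
  rw [fR_smul, map_smul, map_smul, smul_comm]

theorem PP_pt (g : K → ℝ) (x : Nd) : PP g (.pt x) = rowF g x.R x.j x.i x.s x.a := rfl

theorem PP_oo (g : K → ℝ) : PP g .oo = 0 := rfl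

theorem PP_add (g h : K → ℝ) : PP (g + h) = PP g + PP h := by
  funext q
  cases q with
  | oo => show (0 : ℝ) = 0 + 0; ring
  | pt x =>
    show rowF (g + h) x.R x.j x.i x.s x.a = rowF g x.R x.j x.i x.s x.a + rowF h x.R x.j x.i x.s x.a
    rw [rowF_add]
    rfl

theorem PP_smul (c : ℝ) (g : K → ℝ) : PP (c • g) = c • PP g := by
  funext q
  cases q with
  | oo => show (0 : ℝ) = c * 0; ring
  | pt x =>
    show rowF (c • g) x.R x.j x.i x.s x.a = c * rowF g x.R x.j x.i x.s x.a
    rw [rowF_smul]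
    rfl

/-- the projection as a linear map on all functions on `K` -/
def PPl : (K → ℝ) →ₗ[ℝ] (K → ℝ) where
  toFun := PP
  map_add' := PP_add
  map_smul' := PP_smul

end Pool.Agent.Work.MP_c93117_an.Neg
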