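import Pool.Agent.Work.MP_c93117_an.Neg.Basic

/-!
# Project Neg: the space `K` is compact and metrizable; nodes
-/

set_option autoImplicit false
set_option linter.style.haveILetI false

noncomputable section

open Set Filter Topology

namespace Pool.Agent.Work.MP_c93117_an.Neg

/-! ## The cone topology -/

/-- tree orders -/
def Chain (V : Type) [LE V] : Prop := ∀ u v w : V, u ≤ w → v ≤ w → u ≤ v ∨ v ≤ u

theorem cone_tendsto {V : Type} [LE V] {α : Type} (l : Filter α) (φ : α → V) (v : V) :
    Tendsto φ l (@nhds V (coneTop V) v) ↔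
      ∀ u : V, ∀ᶠ w in l, (u ≤ φ w ↔ u ≤ v) := by
  classical
  letI := coneTop V
  have h1 : @nhds V (coneTop V) v =
      comap (fun (v : V) (u : V) => decide (u ≤ v)) (𝓝 (fun u : V => decide (u ≤ v))) :=
    nhds_induced _ _
  rw [h1, tendsto_comap_iff, tendsto_pi_nhds]
  apply forall_congr'
  intro u
  rw [nhds_discrete, tendsto_pure]
  apply eventually_congr
  apply Eventually.of_forall
  intro w
  simp only [Function.comp]
  rw [decide_eq_decide]

theorem cone_compact (V : Type) [PartialOrder V] [OrderBot V] [WellFoundedGT V] (hc : Chain V) :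
    @CompactSpace V (coneTop V) := by
  letI := coneTop V
  refine ⟨?_⟩
  rw [isCompact_iff_ultrafilter_le_nhds]
  intro f _
  obtain ⟨v, hv, hmax⟩ := (wellFounded_gt : WellFounded ((· > ·) : V → V → Prop)).has_min
    {v : V | Ici v ∈ (f : Filter V)} ⟨⊥, by
      have : Ici (⊥ : V) = univ := by ext w; simp
      show Ici (⊥ : V) ∈ (f : Filter V)
      rw [this]
      exact univ_mem⟩
  refine ⟨v, mem_univ v, ?_⟩
  have := (cone_tendsto (f : Filter V) id v).2 ?_
  · exact this
  · intro u
    by_cases h : u ≤ v
    · filter_upwards [hv] with w hw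
      exact ⟨fun _ => h, fun _ => le_trans h hw⟩
    · have h1 : Ici u ∉ (f : Filter V) := by
        intro h2
        obtain ⟨w, hw1, hw2⟩ := f.neBot.nonempty_of_mem (inter_mem h2 hv)
        rcases hc u v w hw1 hw2 with h3 | h3
        · exact h h3
        · exact hmax u h2 (lt_of_le_of_ne h3 (fun h4 => h (h4 ▸ le_rfl)))
      have h2 : (Ici u)ᶜ ∈ (f : Filter V) := by
        have := (Ultrafilter.compl_mem_iff_notMem (f := f) (s := Ici u)).2 h1
        exact this
      filter_upwards [h2] with w hw
      exact ⟨fun h3 => absurd h3 hw, fun h3 => absurd h3 h⟩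

theorem cone_inj (V : Type) [PartialOrder V] (P : ∀ u v : V, Decidable (u ≤ v)) :
    Function.Injective (fun (v : V) (u : V) => decide (u ≤ v)) := by
  intro v v' h
  have h1 : ∀ u, u ≤ v ↔ u ≤ v' := by
    intro u
    have := congrFun h u
    simp only at this
    exact decide_eq_decide.1 this
  exact le_antisymm ((h1 v).1 le_rfl) ((h1 v').2 le_rfl)

theorem cone_t2 (V : Type) [PartialOrder V] : @T2Space V (coneTop V) := by
  classical
  letI := coneTop V
  exact T2Space.of_injective_continuous (cone_inj V _) continuous_induced_dom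

theorem cone_metrizable (V : Type) [PartialOrder V] [OrderBot V] [WellFoundedGT V] [Countable V]
    (hc : Chain V) : @TopologicalSpace.MetrizableSpace V (coneTop V) := by
  classical
  letI := coneTop V
  haveI := cone_t2 V
  haveI := cone_compact V hc
  haveI : SecondCountableTopology V :=
    TopologicalSpace.secondCountableTopology_induced V (V → Bool) _
  exact TopologicalSpace.metrizableSpace_of_t3_secondCountable V

theorem cone_clopen (V : Type) [LE V] (u : V) : @IsClopen V (coneTop V) {v | u ≤ v} := by
  classical
  letI := coneTop V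
  have h0 : Continuous (fun (v : V) (u : V) => decide (u ≤ v)) := continuous_induced_dom
  have h : Continuous (fun v : V => decide (u ≤ v)) := (continuous_pi_iff.1 h0) u
  have h2 : {v : V | u ≤ v} = (fun v : V => decide (u ≤ v)) ⁻¹' {true} := by
    ext v
    simp
  rw [h2]
  exact (isClopen_discrete ({true} : Set Bool)).preimage h

/-! ## The nodes -/

theorem Nd.bb_le (x : Nd) : bb x.s ≤ 2 ^ x.R := by
  rcases x.hs with h | h
  · rw [h, bb_nil]
    exact Nat.zero_le _
  · have h1 := h.1
    have h2 := x.hi
    have h3 : (bb x.s - 1) / 2 ^ (x.R - x.j) < 2 ^ x.j := by rw [h1]; exact h2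
    have h4 : bb x.s - 1 < 2 ^ x.j * 2 ^ (x.R - x.j) :=
      (Nat.div_lt_iff_lt_mul (by positivity)).1 h3
    rw [← pow_add, Nat.add_sub_cancel' x.hj] at h4
    omega

/-- the lexicographic measure -/
def mu (n : ℕ) (s : List ℕ) : Gam := tp (n - bb s) (MM s) (rr s)

theorem tp_lt {a b c a' b' c' : ℕ} : tp a b c < tp a' b' c' ↔
    a < a' ∨ a = a' ∧ (b < b' ∨ b = b' ∧ c < c') := by
  unfold tp
  rw [Prod.Lex.toLex_lt_toLex, Prod.Lex.toLex_lt_toLex]

theorem mu_cons {n e : ℕ} {s : List ℕ} (h : bb (e :: s) ≤ n) : mu n (e :: s) < mu n s := by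
  unfold mu
  rw [tp_lt]
  rcases step_cases e s with h1 | h1 | h1 <;> omega

theorem mu_lt {n : ℕ} {s z : List ℕ} (h : s <:+ z) (hne : s ≠ z) (hz : bb z ≤ n) :
    mu n z < mu n s := by
  obtain ⟨l, rfl⟩ := h
  induction l with
  | nil => exact absurd rfl hne
  | cons e l ih =>
    rw [List.cons_append] at hz ⊢
    have h1 := mu_cons hz
    by_cases h2 : s = l ++ s
    · rw [← h2] at h1 ⊢
      exact h1
    · exact h1.trans (ih h2 (le_trans (bb_mono (List.suffix_cons e (l ++ s))) hz))

theorem Nd.acc (x : Nd) : Acc ((· > ·) : Nd → Nd → Prop) x := by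
  have key : ∀ (R : ℕ) (g : Gam) (x : Nd), x.R = R → mu (2 ^ R) x.s = g →
      Acc ((· > ·) : Nd → Nd → Prop) x := by
    intro R g
    induction g using (wellFounded_lt : WellFounded ((· < ·) : Gam → Gam → Prop)).induction with
    | _ g ih =>
      intro x hR hg
      refine Acc.intro x ?_
      intro y hy
      have hy' : x < y := hy
      have h1 := Nd.le_def.1 hy'.le
      have hyR : y.R = R := by rw [← h1.1, hR]
      refine ih (mu (2 ^ R) y.s) ?_ y hyR rfl
      rw [← hg]
      apply mu_lt h1.2.2.2.1
      · intro h2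
        apply hy'.ne
        refine Nd.ext' h1.1 h1.2.1 h1.2.2.1 h2 ?_
        rw [h1.2.2.2.2, h2, y.filter_self]
      · rw [← hyR]
        exact y.bb_le
  exact key x.R _ x rfl rfl

instance : WellFoundedGT K := by
  have h1 : ∀ x : Nd, Acc ((· > ·) : K → K → Prop) (K.pt x) := by
    intro x
    have hx := x.acc
    induction hx with
    | intro x _ ih =>
      refine Acc.intro _ ?_
      intro y hy
      cases y with
      | oo =>
        have hy' : K.pt x < K.oo := hy
        exact absurd hy'.le K.not_pt_le_oo
      | pt y =>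
        apply ih y
        have hy' : K.pt x < K.pt y := hy
        exact lt_of_le_of_ne (K.pt_le_pt.1 hy'.le) (fun h => hy'.ne (by rw [h]))
  refine ⟨⟨?_⟩⟩
  intro x
  cases x with
  | oo =>
    refine Acc.intro _ ?_
    intro y hy
    cases y with
    | oo => exact absurd hy (lt_irrefl _)
    | pt y => exact h1 y
  | pt x => exact h1 x

theorem K.chain : Chain K := by
  intro u v w hu hv
  cases u with
  | oo => exact Or.inl (K.oo_le v)
  | pt u =>
    cases v with
    | oo => exact Or.inr (K.oo_le _)
    | pt v =>
      cases w with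
      | oo => exact absurd hu K.not_pt_le_oo
      | pt w =>
        obtain ⟨a1, a2, a3, a4, a5⟩ := K.pt_le_pt.1 hu
        obtain ⟨b1, b2, b3, b4, b5⟩ := K.pt_le_pt.1 hv
        rcases suffix_total a4 b4 with h | h
        · left
          refine K.pt_le_pt.2 ⟨a1.trans b1.symm, a2.trans b2.symm, a3.trans b3.symm, h, ?_⟩
          rw [a5, b5, Finset.filter_filter]
          have := cc_mono h
          apply Finset.filter_congr
          intro z _
          omega
        · right
          refine K.pt_le_pt.2 ⟨b1.trans a1.symm, b2.trans a2.symm, b3.trans a3.symm, h, ?_⟩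
          rw [a5, b5, Finset.filter_filter]
          have := cc_mono h
          apply Finset.filter_congr
          intro z _
          omega

instance : Countable Nd := by
  apply Function.Injective.countable
    (f := fun x : Nd => ((x.R, x.j, x.i, x.s, x.a) : ℕ × ℕ × ℕ × List ℕ × Finset ℕ))
  intro x y h
  simp only [Prod.mk.injEq] at h
  exact Nd.ext' h.1 h.2.1 h.2.2.1 h.2.2.2.1 h.2.2.2.2

instance : Countable K := by
  apply Function.Injective.countable
    (f := fun x : K => (match x with | .oo => none | .pt x => some x : Option Nd))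
  intro x y h
  cases x <;> cases y <;> simp_all

instance : CompactSpace K := cone_compact K K.chain

instance : T2Space K := cone_t2 K

instance : TopologicalSpace.MetrizableSpace K := cone_metrizable K K.chain

end Pool.Agent.Work.MP_c93117_an.Neg
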