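import Pool.Agent.Work.MP_c93117_an.Neg.Node

/-!
# Project Neg: statements of the items
-/

set_option autoImplicit false

noncomputable section

open Finset Polynomial

namespace Pool.Agent.Work.MP_c93117_an.Neg

/-! ## A. Density -/

open Classical in
/-- indicator of the cone of `u` -/
def ind (u : K) : K → ℝ := fun q => if u ≤ q then 1 else 0

/-- A1. Continuous functions are uniformly approximated by combinations of cone indicators. -/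
def StDense : Prop := ∀ f : K → ℝ, Continuous f → ∀ η : ℝ, 0 < η →
  ∃ (A : Finset K) (c : K → ℝ), ∀ q : K, |f q - ∑ u ∈ A, c u * ind u q| ≤ η

/-! ## B. The thinning operator -/

/-- B1. local bound for the thinning -/
def StQabs : Prop := ∀ p : ℝ, 0 ≤ p → p ≤ 1 → ∀ (F : FF) (s : List ℕ) (a : Finset ℕ) (B : ℝ),
  (∀ b, b ⊆ a → |F s b| ≤ B) → |Qop p F s a| ≤ B

/-- B2. the thinning of a function which needs the coordinates in `C0` -/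
def StQthin : Prop := ∀ p : ℝ, 0 ≤ p → p ≤ 1 → ∀ (F : FF) (s : List ℕ) (a C0 : Finset ℕ) (B : ℝ),
  0 ≤ B → (∀ b, b ⊆ a → |F s b| ≤ B) → (∀ b, b ⊆ a → ¬ C0 ⊆ b → F s b = 0) →
  |Qop p F s a| ≤ p ^ C0.card * B

/-- B3. thinning preserves admissibility -/
def StQadm : Prop := ∀ (p : ℝ) (F : FF), (A1 F → A1 (Qop p F)) ∧ (A2 F → A2 (Qop p F))

open Classical in
/-- indicator of the words beyond `s0` with selection `b0` on the coordinates of `s0` -/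
def chi (s0 : List ℕ) (b0 : Finset ℕ) : FF :=
  fun s a => if s0 <:+ s ∧ a.filter (· < cc s0) = b0 then 1 else 0

open Classical in
/-- indicator of the words beyond `s0` with `c0` selected -/
def psi (s0 : List ℕ) (c0 : ℕ) : FF := fun s a => if s0 <:+ s ∧ c0 ∈ a then 1 else 0

/-- the span of the `chi s0 b` with `b` containing the last coordinate of `s0` -/
def CS (s0 : List ℕ) : Submodule ℝ FF :=
  Submodule.span ℝ {F | ∃ b : Finset ℕ, b ⊆ range (cc s0) ∧ cc s0 - 1 ∈ b ∧ F = chi s0 b}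

/-- B4. thinning of `psi` -/
def StQpsi : Prop := ∀ (p : ℝ) (s0 : List ℕ) (c0 : ℕ), Qop p (psi s0 c0) = p • psi s0 c0

/-- B5. the thinning leaves `CS s0` invariant -/
def StQchi : Prop := ∀ (p : ℝ) (s0 : List ℕ) (F : FF), F ∈ CS s0 → Qop p F ∈ CS s0

/-! ## C. Polynomials -/

/-- the sum of the absolute values of the coefficients -/
def N1 (f : ℝ[X]) : ℝ := f.sum (fun _ c => |c|)

/-- C1. calculus of `N1` -/
def StN1 : Prop :=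
  (∀ f g : ℝ[X], N1 (f + g) ≤ N1 f + N1 g) ∧ (∀ f g : ℝ[X], N1 (f * g) ≤ N1 f * N1 g) ∧
  (∀ (c : ℝ) (f : ℝ[X]), N1 (C c * f) = |c| * N1 f) ∧ (∀ n : ℕ, N1 (X ^ n) = 1) ∧
  (N1 1 = 1) ∧ (∀ f : ℝ[X], N1 (-f) = N1 f) ∧ (∀ f : ℝ[X], 0 ≤ N1 f) ∧ (N1 0 = 0)

/-- C2. the averages almost absorb the later ones -/
def StN1eps : Prop := ∀ R j l : ℕ, j < l → l < R →
  N1 (epsP R j) ≤ 1 ∧ N1 ((1 - epsP R l) * epsP R j) ≤ 2 / 8 ^ (l - j)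

/-- C3. bounds for `PiP` -/
def StN1Pi : Prop := (∀ R j : ℕ, j ≤ R → N1 (PiP R j) ≤ 3) ∧
  (∀ R j j' : ℕ, j' < j → j ≤ R → N1 (PiP R j * epsP R j') ≤ 48 / 8 ^ (j - j')) ∧
  (∀ R j : ℕ, N1 (epsP R j) ≤ 1)

/-- C4. telescoping -/
def StTel : Prop := ∀ R : ℕ, ∑ j ∈ range (R + 1), epsP R j * PiP R j = 1

/-- C5. operator bound -/
def StN1op : Prop := ∀ (R : ℕ) (f : ℝ[X]) (F : FF) (B : ℝ), (∀ s a, |F s a| ≤ B) →
  ∀ s a, |op R f F s a| ≤ N1 f * B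

/-! ## D. The increments -/

/-- truncation of the words -/
def TrO (m : ℕ) : Module.End ℝ FF where
  toFun F := fun s a => F (trb m s) a
  map_add' _ _ := rfl
  map_smul' _ _ := rfl

/-- D1. polynomials in the thinning commute with truncation and increments -/
def StComm : Prop := ∀ (R : ℕ) (f : ℝ[X]) (F : FF),
  (∀ m, TrO m (op R f F) = op R f (TrO m F)) ∧
  (∀ R' j i, Dop R' j i (op R f F) = op R f (Dop R' j i F))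

/-- D2. the increments over the intervals of a level sum up -/
def StDsum : Prop := ∀ (R j : ℕ) (F : FF), j ≤ R →
  ∑ i ∈ range (2 ^ j), Dop R j i F = TrO (2 ^ R) F - TrO 0 F

/-- D3. increments of functions living on a disjoint interval vanish -/
def StDzero : Prop := ∀ (g : K → ℝ) (R j i j' i' : ℕ), j ≤ R → j' ≤ R → i' < 2 ^ j' →
  (j ≤ j' → i' / 2 ^ (j' - j) ≠ i → Dop R j i (lft g R j' i') = 0) ∧
  (j' ≤ j → i / 2 ^ (j - j') ≠ i' → Dop R j i (lft g R j' i') = 0)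

/-- D4. increments of admissible functions live on the component -/
def StDloc : Prop := ∀ (R j i : ℕ) (F : FF), j ≤ R → A1 F → A2 F → ∀ (s : List ℕ) (a : Finset ℕ),
  Dop R j i F (loc R j i a s) (a.filter (· < cc (loc R j i a s))) = Dop R j i F s a

/-- D5. `fR g R` is admissible, and the components of `PP g` are the rows -/
def StLftPP : Prop := ∀ (g : K → ℝ) (R j i : ℕ), j ≤ R → i < 2 ^ j →
  lft (PP g) R j i = rowF g R j i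

/-! ## E. The projection -/

/-- E1. idempotent -/
def StIdem : Prop := ∀ g : K → ℝ, PP (PP g) = PP g

/-- E2. bounded -/
def StNorm : Prop := ∀ (g : K → ℝ) (B : ℝ), (∀ q, |g q| ≤ B) → ∀ q, |PP g q| ≤ 108 * B

/-- E3. action on `chi` -/
def StDchi : Prop := ∀ (R j i : ℕ) (s0 : List ℕ) (b0 : Finset ℕ), j ≤ R → s0 ≠ [] →
  ((bb s0 - 1) / 2 ^ (R - j) = i → Dop R j i (chi s0 b0) = chi s0 b0) ∧
  ((bb s0 - 1) / 2 ^ (R - j) ≠ i → Dop R j i (chi s0 b0) = 0)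

/-- E4. the image of a cone indicator is continuous -/
def StContInd : Prop := ∀ u : K, Continuous (PP (ind u))

/-- E5. continuity -/
def StCont : Prop := ∀ g : K → ℝ, Continuous g → Continuous (PP g)

/-- E6. the functions `gs`: continuity, disjointness, lower bound -/
def StGsCont : Prop := ∀ (R : ℕ) (s : List ℕ), s ≠ [] → bb s ≤ 2 ^ R → Continuous (gs R s)

/-- E7. lower bound -/
def StLow : Prop := ∀ (R : ℕ) (s z : List ℕ), s ≠ [] → s <:+ z → bb z ≤ 2 ^ R →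
  1 / 2 ≤ PP (gs R s) (nd R 0 0 z (range (cc z)))

/-- E8. smallness for functions which need many coordinates -/
def StSmall : Prop := ∀ (R0 : ℕ) (δ : ℝ), 0 < δ → ∃ N0 : ℕ, ∀ h : K → ℝ,
  (∀ q, |h q| ≤ 1) → (∀ q, ¬ low R0 q → h q = 0) →
  (∀ R ≤ R0, ∀ j < R, ∀ i < 2 ^ j, ∀ s : List ℕ, bb s ≤ 2 ^ R →
    ∃ C0 : Finset ℕ, N0 ≤ C0.card + 2 ^ R ∧ ∀ a, h (nd R j i s a) ≠ 0 → C0 ⊆ a) →
  ∀ q, |PP h q| ≤ δ

/-! ## F. Finite approximations -/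

/-- F1. the retraction in the function model -/
def StPiNd : Prop := ∀ (F : FD) (R j i : ℕ) (s : List ℕ) (a : Finset ℕ), R ≤ F.R0 →
  piF F (nd R j i s a) = nd R j i (trB F s) a

/-- F2. order properties of the retraction -/
def StPiLe : Prop := (∀ (F : FD) (q : K), piF F q ≤ q) ∧
  (∀ (F F' : FD) (q : K), F ≤ F' → piF F q ≤ piF F' q) ∧
  (∀ x y : K, x ≤ y → dp x ≤ dp y) ∧ (∀ x y : K, x < y → dp x < dp y ∨ dp y = 2)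

/-- F3. a moving point has a seen step in between -/
def StPiMove : Prop := ∀ (F F' : FD) (R j i : ℕ) (s : List ℕ) (a : Finset ℕ), F ≤ F' →
  R ≤ F.R0 → piF F' (nd R j i s a) ≠ piF F (nd R j i s a) →
  ∃ t : List ℕ, trB F s <:+ t ∧ trB F s ≠ t ∧ t <:+ trB F' s ∧ sn R j i a t

/-- F4. finite range, clopen fibres -/
def StPiClopen : Prop := (∀ F : FD, (Set.range (piF F)).Finite) ∧
  (∀ F F' : FD, IsClopen {q : K | piF F' q ≠ piF F q}) ∧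
  (∀ R0 : ℕ, IsClopen {q : K | low R0 q})

/-- F5. approximation -/
def StPiDense : Prop := ∀ f : K → ℝ, Continuous f → ∀ η : ℝ, 0 < η → ∀ F : FD,
  ∃ F' : FD, F ≤ F' ∧ ∀ q : K, |f q - f (piF F' q)| ≤ η

/-! ## G. The space `L` -/

/-- bump functions: between 0 and 1, zero off `V`, one on `V'` -/
def Bump {L : Type} [TopologicalSpace L] (φ : C(L, ℝ)) (V V' : Set L) : Prop :=
  (∀ l, 0 ≤ φ l ∧ φ l ≤ 1) ∧ (∀ l, l ∉ V → φ l = 0) ∧ (∀ l, l ∈ V' → φ l = 1)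

/-- G1. the step lemma -/
def StStep : Prop := ∀ (L : Type) [MetricSpace L] [CompactSpace L]
  (U : C(L, ℝ) →L[ℝ] C(K, ℝ)) (x : Gam) (xe : ℕ → Gam), (∀ e, xe e < x) →
  ∀ V : Set L, IsOpen V → (V ∩ DD L x).Nonempty →
  ∀ (A : Set K), A.Finite → ∀ η : ℝ, 0 < η → ∀ e0 : ℕ,
  ∃ e : ℕ, e0 ≤ e ∧ ∃ (V' : Set L) (φ : C(L, ℝ)), IsOpen V' ∧ V' ⊆ V ∧
    (V' ∩ DD L (xe e)).Nonempty ∧ Bump φ V V' ∧ ∀ q ∈ A, |U φ q| ≤ η

/-- G2. one step of the game -/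
def StOne : Prop := ∀ (L : Type) [MetricSpace L] [CompactSpace L]
  (U : C(L, ℝ) →L[ℝ] C(K, ℝ)) (x : Gam) (xe : ℕ → Gam), (∀ e, xe e < x) →
  ∀ V : Set L, IsOpen V → (V ∩ DD L x).Nonempty →
  ∀ (F : FD) (η : ℝ), 0 < η → ∀ e0 : ℕ,
  ∃ e : ℕ, e0 ≤ e ∧ ∃ (V' : Set L) (φ : C(L, ℝ)) (F' : FD), IsOpen V' ∧ V' ⊆ V ∧
    (V' ∩ DD L (xe e)).Nonempty ∧ Bump φ V V' ∧ F ≤ F' ∧
    ∀ q : K, piF F' q = piF F q → |U φ q| ≤ η

/-! ## H. Case 1 -/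

/-- after `m` steps of a part -/
def PartInv (F0 F : FD) (m : ℕ) (G : Set K) : Prop := ∀ s : List ℕ,
  (∀ (R j i : ℕ) (a : Finset ℕ), R ≤ F0.R0 → nd R j i s a ∉ G) ∨
  bb (trB F0 s) < bb (trB F s) ∨
  (∃ c0 : ℕ, cc (trB F0 s) ≤ c0 ∧ c0 < cc (trB F s) ∧
    ∀ (R j i : ℕ) (a : Finset ℕ), R ≤ F0.R0 → nd R j i s a ∈ G → c0 ∈ a) ∨
  (cc (trB F s) = cc (trB F0 s) ∧ m + rr (trB F s) ≤ rr (trB F0 s)) ∨
  (cc (trB F0 s) < cc (trB F s) ∧ m + cc (trB F0 s) ≤ cc (trB F s) + rr (trB F0 s))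

/-- after a complete part -/
def PartOK (F0 F : FD) (G : Set K) : Prop := ∀ s : List ℕ,
  (∀ (R j i : ℕ) (a : Finset ℕ), R ≤ F0.R0 → nd R j i s a ∉ G) ∨
  bb (trB F0 s) < bb (trB F s) ∨
  (∃ c0 : ℕ, cc (trB F0 s) ≤ c0 ∧ c0 < cc (trB F s) ∧
    ∀ (R j i : ℕ) (a : Finset ℕ), R ≤ F0.R0 → nd R j i s a ∈ G → c0 ∈ a)

/-- after `N` parts -/
def Forced (F0 F : FD) (G : Set K) (N : ℕ) : Prop := ∀ s : List ℕ,
  (∀ (R j i : ℕ) (a : Finset ℕ), R ≤ F0.R0 → nd R j i s a ∉ G) ∨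
  ∃ C0 : Finset ℕ, (∀ c ∈ C0, cc (trB F0 s) ≤ c ∧ c < cc (trB F s)) ∧
    N + bb (trB F0 s) ≤ C0.card + bb (trB F s) ∧
    ∀ (R j i : ℕ) (a : Finset ℕ), R ≤ F0.R0 → nd R j i s a ∈ G → C0 ⊆ a

/-- H1. one more step -/
def StInvStep : Prop := ∀ (F0 F F' : FD) (m : ℕ) (G : Set K), F0 ≤ F → F ≤ F' →
  PartInv F0 F m G → PartInv F0 F' (m + 1) (G ∩ {q | piF F' q ≠ piF F q})

/-- H2. the part is long enough -/
def StInvEnd : Prop := ∀ (F0 F : FD) (m : ℕ) (G : Set K), F0 ≤ F →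
  (∀ t ∈ F0.B, MM t + rr t < m) → 0 < m → PartInv F0 F m G → PartOK F0 F G

/-- H3. one more part (in front) -/
def StForcedStep : Prop := ∀ (F0 F1 F2 : FD) (N : ℕ) (G G' : Set K), F0 ≤ F1 → F1 ≤ F2 →
  PartOK F0 F1 G → Forced F1 F2 G' N → Forced F0 F2 (G ∩ G') (N + 1)

/-- H4. the part lemma -/
def StPart : Prop := ∀ (L : Type) [MetricSpace L] [CompactSpace L]
  (U : C(L, ℝ) →L[ℝ] C(K, ℝ)) (B M : ℕ) (V : Set L), IsOpen V →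
  (V ∩ DD L (tp B (M + 1) 0)).Nonempty → ∀ (F0 : FD) (η : ℝ), 0 < η →
  ∃ (F1 : FD) (V' : Set L) (φ : C(L, ℝ)) (G : Set K), F0 ≤ F1 ∧ IsOpen V' ∧ V' ⊆ V ∧
    (V' ∩ DD L (tp B M 0)).Nonempty ∧ Bump φ V V' ∧ IsClopen G ∧
    (∀ q ∈ G, piF F1 q ≠ piF F0 q) ∧
    (∀ q, q ∉ G → ∃ θ : C(L, ℝ), Bump θ V V' ∧ |U θ q| ≤ η) ∧ PartOK F0 F1 G

/-- H5. `N` parts -/
def StParts : Prop := ∀ (L : Type) [MetricSpace L] [CompactSpace L]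
  (U : C(L, ℝ) →L[ℝ] C(K, ℝ)) (B N : ℕ) (V : Set L), IsOpen V →
  (V ∩ DD L (tp B N 0)).Nonempty → ∀ (F0 : FD) (η : ℝ), 0 < η →
  ∃ (F1 : FD) (V' : Set L) (G : Set K), F0 ≤ F1 ∧ IsOpen V' ∧ V' ⊆ V ∧
    (V' ∩ DD L (tp B 0 0)).Nonempty ∧ IsClopen G ∧
    (∀ q ∈ G, 0 < N → piF F1 q ≠ piF F0 q) ∧
    (∀ q, q ∉ G → ∃ θ : C(L, ℝ), Bump θ V V' ∧ |U θ q| ≤ η) ∧ Forced F0 F1 G N

/-- H6. the block lemma -/
def StBlock : Prop := ∀ (L : Type) [MetricSpace L] [CompactSpace L]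
  (U : C(L, ℝ) →L[ℝ] C(K, ℝ)) (B : ℕ) (V : Set L), IsOpen V →
  (V ∩ DD L (tp (B + 1) 0 0)).Nonempty → ∀ (F0 : FD) (η δ : ℝ), 0 < η → 0 < δ →
  ∃ (F1 : FD) (V' : Set L) (φ : C(L, ℝ)) (G : Set K), F0 ≤ F1 ∧ IsOpen V' ∧ V' ⊆ V ∧
    (V' ∩ DD L (tp B 0 0)).Nonempty ∧ Bump φ V V' ∧ IsClopen G ∧
    (∀ q, q ∉ G → ∃ θ : C(L, ℝ), Bump θ V V' ∧ |U θ q| ≤ η) ∧
    (∀ q ∈ G, ¬ low F0.R0 q → dp (piF F0 q) ≤ 1 ∧ dp (piF F1 q) = 2) ∧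
    (∀ h : K → ℝ, (∀ q, |h q| ≤ 1) → (∀ q, ¬ (q ∈ G ∧ low F0.R0 q) → h q = 0) →
      ∀ q, |PP h q| ≤ δ)

/-- H7. the induction over the blocks -/
def StInd : Prop := ∀ (L : Type) [MetricSpace L] [CompactSpace L]
  (U : C(L, ℝ) →L[ℝ] C(K, ℝ)) (η δ : ℝ), 0 < η → 0 < δ → ∀ (k : ℕ) (F : FD) (V : Set L),
  IsOpen V → (V ∩ DD L (tp k 0 0)).Nonempty →
  ∃ (Φ : C(L, ℝ)) (H1 H2 H3 : C(K, ℝ)) (l : L), l ∈ V ∧ U Φ = H1 + H2 + H3 ∧ Φ l = k ∧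
    (∀ q, |H1 q| ≤ ‖U‖) ∧ (∀ q, dp (piF F q) = 2 → H1 q = 0) ∧
    (∀ q, |PP H2 q| ≤ k * δ * ‖U‖) ∧
    (∀ q, ∃ ψ : C(L, ℝ), (∀ l', |ψ l'| ≤ 1) ∧ (∀ l', l' ∉ V → ψ l' = 0) ∧
      |H3 q| ≤ k * η + U ψ q)

/-- H8. Case 1 -/
def StCase1 : Prop := ∀ (L : Type) [MetricSpace L] [CompactSpace L]
  (U : C(L, ℝ) →L[ℝ] C(K, ℝ)) (T : C(K, ℝ) →L[ℝ] C(L, ℝ)), (∀ φ, T (U φ) = φ) →
  (∀ h : C(K, ℝ), ∃ h' : C(K, ℝ), (∀ q, h' q = PP h q) ∧ T h' = T h) →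
  ∀ k : ℕ, 4 * ‖T‖ * ‖U‖ < k → DD L (tp k 0 0) = ∅

/-! ## I. Case 2 -/

/-- `rk` is a rank function on `L` -/
def IsRank {L : Type} [TopologicalSpace L] (rk : L → Gam) : Prop :=
  ∀ p : L, ∃ V : Set L, IsOpen V ∧ p ∈ V ∧ ∀ l ∈ V, l ≠ p → rk l < rk p

/-- I1. the rank function -/
def StRank : Prop := ∀ (L : Type) [MetricSpace L] [CompactSpace L] (x : Gam), DD L x = ∅ →
  ∃ rk : L → Gam, (∀ l, rk l < x) ∧ IsRank rk

/-- location ranks given by a finite cover by closed sets with centers -/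
def Good {L : Type} [TopologicalSpace L] (rk : L → Gam) (ρ : L → Gam) : Prop :=
  ∃ S : Set (L × Set L), S.Finite ∧
    (∀ x ∈ S, IsClosed x.2 ∧ x.1 ∈ x.2 ∧ ∀ l ∈ x.2, l ≠ x.1 → rk l < rk x.1) ∧
    ∀ l : L, ∃ x ∈ S, l ∈ x.2 ∧ ρ l = rk x.1

/-- I2. start and boundedness -/
def StGoodA : Prop := ∀ (L : Type) [MetricSpace L] [CompactSpace L] (rk : L → Gam), IsRank rk →
  (∃ ρ, Good rk ρ) ∧
  (∀ ρ : L → Gam, Good rk ρ → (∀ l, ∃ p, ρ l = rk p) ∧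
    ∃ N : ℕ, ∀ l, ∃ b m r : ℕ, ρ l = tp b m r ∧ m ≤ N ∧ r ≤ N)

/-- I2'. refinement -/
def StGoodB : Prop := ∀ (L : Type) [MetricSpace L] [CompactSpace L] (rk : L → Gam), IsRank rk →
  ∀ (ρ : L → Gam) (η : ℝ), Good rk ρ → 0 < η → ∃ A : Finset L, ∀ φ : C(L, ℝ),
    (∀ p ∈ A, |φ p| < η) → ∃ ρ' : L → Gam, Good rk ρ' ∧ (∀ l, ρ' l ≤ ρ l) ∧
      ∀ l, 2 * η ≤ |φ l| → ρ' l < ρ l

/-- the first two components -/
def pr12 (x : Gam) : ℕ ×ₗ ℕ := toLex ((ofLex x).1, (ofLex (ofLex x).2).1)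

/-- the first component -/
def pr1 (x : Gam) : ℕ := (ofLex x).1

/-- the words which are nonempty initial parts of `z` -/
def parts (z : List ℕ) : Set (List ℕ) := {t | t ≠ [] ∧ t <:+ z}

/-- the data of Case 2 -/
def Dat (L : Type) [MetricSpace L] [CompactSpace L] (E : Type) [AddCommGroup E] [Module ℝ E]
    (γ : List ℕ → E) (T : E →ₗ[ℝ] C(L, ℝ)) (C : ℝ) : Prop :=
  ∀ (s : List ℕ) (l : L) (A : Finset ℕ), ∑ e ∈ A, |T (γ (e :: s)) l| ≤ C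

open Classical in
/-- I3. coordinate lemma -/
def StCoord : Prop := ∀ (L : Type) [MetricSpace L] [CompactSpace L] (E : Type) [AddCommGroup E]
  [Module ℝ E] (γ : List ℕ → E) (T : E →ₗ[ℝ] C(L, ℝ)) (C : ℝ), Dat L E γ T C →
  ∀ (rk : L → Gam), IsRank rk → ∀ (ρ : L → Gam), Good rk ρ → ∀ η : ℝ, 0 < η →
  ∀ s : List ℕ, rr s = 0 → MM s ≠ 0 →
  ∃ (z : List ℕ) (ρ' : L → Gam) (g : E), s <:+ z ∧ bb z = bb s ∧ MM z + 1 = MM s ∧ rr z = 0 ∧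
    Good rk ρ' ∧ (∀ l, ρ' l ≤ ρ l) ∧ g ∈ convexHull ℝ (γ '' parts z) ∧
    ∀ l, |T g l| ≤ η + C * (if pr12 (ρ' l) < pr12 (ρ l) then 1 else 0)

open Classical in
/-- I4. block lemma -/
def StBlk : Prop := ∀ (L : Type) [MetricSpace L] [CompactSpace L] (E : Type) [AddCommGroup E]
  [Module ℝ E] (γ : List ℕ → E) (T : E →ₗ[ℝ] C(L, ℝ)) (C : ℝ), Dat L E γ T C →
  ∀ (rk : L → Gam), IsRank rk → ∀ (ρ : L → Gam), Good rk ρ → ∀ η : ℝ, 0 < η →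
  ∀ s : List ℕ, rr s = 0 → MM s = 0 →
  ∃ (z : List ℕ) (ρ' : L → Gam) (g : E), s <:+ z ∧ bb z = bb s + 1 ∧ MM z = 0 ∧ rr z = 0 ∧
    Good rk ρ' ∧ (∀ l, ρ' l ≤ ρ l) ∧ g ∈ convexHull ℝ (γ '' parts z) ∧
    ∀ l, |T g l| ≤ η + C * (if pr1 (ρ' l) < pr1 (ρ l) then 1 else 0)

/-- I5. Case 2 -/
def StCase2 : Prop := ∀ (L : Type) [MetricSpace L] [CompactSpace L] (k : ℕ),
  DD L (tp k 0 0) = ∅ → ∀ (E : Type) [AddCommGroup E] [Module ℝ E] (γ : List ℕ → E)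
  (T : E →ₗ[ℝ] C(L, ℝ)) (C : ℝ), Dat L E γ T C → ∀ n : ℕ, 1 ≤ n → ∀ η : ℝ, 0 < η →
  ∃ (z : List ℕ) (g : E), bb z ≤ n ∧ g ∈ convexHull ℝ (γ '' parts z) ∧
    ∀ l, |T g l| ≤ η + C * k / n

/-! ## J. Conclusion -/

/-- J1. The range of the projection is not isomorphic to a `C(L)`. -/
def StNotIso : Prop := ∀ (P : C(K, ℝ) →L[ℝ] C(K, ℝ)), (∀ (g : C(K, ℝ)) (q : K), P g q = PP g q) →
  ∀ (L : Type) [MetricSpace L] [CompactSpace L] (U : C(L, ℝ) →L[ℝ] C(K, ℝ))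
    (T : C(K, ℝ) →L[ℝ] C(L, ℝ)), (∀ φ, T (U φ) = φ) → (∀ g, U (T g) = P g) → False

/-- J2. The text of the frozen statement S06126. -/
def StFinal : Prop :=
  ¬ (∀ (K : Type) [MetricSpace K] [CompactSpace K] (p : Submodule ℝ C(K, ℝ)),
      p.ClosedComplemented → ¬ FiniteDimensional ℝ p →
      ∃ (L : Type) (_ : MetricSpace L) (_ : CompactSpace L),
        Nonempty (p ≃L[ℝ] C(L, ℝ)))

end Pool.Agent.Work.MP_c93117_an.Neg
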